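import Mathlib

/-! Algebra for the part [INJ] of project QU. -/

set_option autoImplicit false

namespace Pool.Agent.L7h6.QU

section ring

variable {R : Type*} [CommRing R]

theorem approx {ι : Type*} {F : Type*} [Field F] (S : Finset ι) (c : ι → F)
    (T U : ι → Polynomial F) (q : Polynomial F)
    (h0 : ∑ s ∈ S, Polynomial.C (c s) * T s = 0) (h : ∀ s ∈ S, q ∣ T s - U s) :
    q ∣ ∑ s ∈ S, Polynomial.C (c s) * U s := by
  have h1 : ∑ s ∈ S, Polynomial.C (c s) * U s = -∑ s ∈ S, Polynomial.C (c s) * (T s - U s) := by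
    simp only [mul_sub, Finset.sum_sub_distrib, h0]
    ring
  rw [h1, dvd_neg]
  exact Finset.dvd_sum fun s hs => (h s hs).mul_left _

theorem pow_near (z u v w : R) (hw : z * w = 4 * u ^ 3 + v ^ 2 * (4 * z - 1)) {b e : ℕ} (hb : b ≤ e) :
    v ^ 2 ∣ (z * w) ^ b * u ^ (3 * (e - b)) - 4 ^ b * u ^ (3 * e) := by
  have h1 : (4 : R) ^ b * u ^ (3 * e) = (4 * u ^ 3) ^ b * u ^ (3 * (e - b)) := by
    have h2 : 3 * e = 3 * b + 3 * (e - b) := by omega
    rw [mul_pow, ← pow_mul, h2, pow_add]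
    have h3 : 3 * b + 3 * (e - b) - 3 * b = 3 * (e - b) := by omega
    ring
  rw [h1, ← sub_mul]
  refine Dvd.dvd.mul_right (dvd_trans ?_ (sub_dvd_pow_sub_pow (z * w) (4 * u ^ 3) b)) _
  rw [hw]
  exact ⟨4 * z - 1, by ring⟩

/-- the terms at the cusp `z = 2` -/
theorem term_two (z u v w : R) (hw : z * w = 4 * u ^ 3 + v ^ 2 * (4 * z - 1)) {a b e I : ℕ}
    (hI : 1 ≤ I) (haI : a ≤ I) (hb : b ≤ e) (hb1 : a = I → b ≤ 1) :
    v ^ 4 ∣ z ^ (a + b) * u ^ (3 * (e - b)) * v ^ (2 * (I - a)) * w ^ b -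
      ((if a = I ∧ b = 0 then 1 else 0) * (z ^ I * u ^ (3 * e)) +
        (if a = I ∧ b = 1 then 1 else 0) * (z ^ (I + 1) * u ^ (3 * (e - 1)) * w) +
        (if a = I - 1 then 4 ^ b else 0) * (v ^ 2 * z ^ (I - 1) * u ^ (3 * e))) := by
  rcases Nat.lt_or_ge a (I - 1) with h | h
  · have h1 : ¬ a = I := by omega
    have h2 : ¬ a = I - 1 := by omega
    simp only [h1, h2, false_and, if_false, zero_mul, add_zero, sub_zero]
    refine Dvd.dvd.mul_right (Dvd.dvd.mul_left (pow_dvd_pow _ (by omega)) _) _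
  rcases Nat.eq_or_lt_of_le h with h | h
  · have h1 : ¬ a = I := by omega
    have h2 : a = I - 1 := h.symm
    simp only [h2, if_true]
    have h1' : ¬ I - 1 = I := by omega
    have h3 : I - (I - 1) = 1 := by omega
    simp only [h1', false_and, if_false, zero_mul, zero_add, h3, mul_one]
    obtain ⟨q, hq⟩ := pow_near z u v w hw hb
    refine ⟨z ^ (I - 1) * q, ?_⟩
    have h4 : z ^ (I - 1 + b) * u ^ (3 * (e - b)) * v ^ 2 * w ^ b =
        v ^ 2 * z ^ (I - 1) * ((z * w) ^ b * u ^ (3 * (e - b))) := by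
      rw [pow_add, mul_pow]
      ring
    rw [h4]
    linear_combination (v ^ 2 * z ^ (I - 1)) * hq
  · have h1 : a = I := by omega
    subst h1
    have h2 : ¬ a = a - 1 := by omega
    have h3 : b = 0 ∨ b = 1 := by
      have := hb1 rfl
      omega
    rcases h3 with h3 | h3
    · subst h3
      simp [h2]
    · subst h3
      simp [h2]

/-- the terms at the cusp `z = 1` -/
theorem term_one (z u v w : R) {a b e J : ℕ} (ha : a ≤ 2) (hae : a ≤ e) (hbJ : b ≤ J) :
    u ^ 3 ∣ v ^ 4 * (z ^ (a + b) * u ^ (3 * (J - b)) * v ^ (2 * (e - a)) * w ^ b) -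
      ((if b = J ∧ a = 0 then 1 else 0) * (z ^ J * w ^ J * v ^ (2 * e) * v ^ 4) +
        (if b = J ∧ a = 1 then 1 else 0) * (z ^ J * w ^ J * v ^ (2 * e) * (z * v ^ 2)) +
        (if b = J ∧ a = 2 then 1 else 0) * (z ^ J * w ^ J * v ^ (2 * e) * z ^ 2)) := by
  rcases Nat.lt_or_ge b J with h | h
  · have h1 : ¬ b = J := by omega
    simp only [h1, false_and, if_false, zero_mul, add_zero, sub_zero]
    refine Dvd.dvd.mul_left (Dvd.dvd.mul_right (Dvd.dvd.mul_right (Dvd.dvd.mul_left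
      (pow_dvd_pow _ (by omega)) _) _) _) _
  · have h1 : b = J := by omega
    subst h1
    have h3 : a = 0 ∨ a = 1 ∨ a = 2 := by omega
    rcases h3 with h3 | h3 | h3
    · subst h3
      refine ⟨0, ?_⟩
      simp
      ring
    · subst h3
      obtain ⟨k, rfl⟩ : ∃ k, e = k + 1 := ⟨e - 1, by omega⟩
      refine ⟨0, ?_⟩
      simp
      ring
    · subst h3
      obtain ⟨k, rfl⟩ : ∃ k, e = k + 2 := ⟨e - 2, by omega⟩
      refine ⟨0, ?_⟩
      simp
      ring

end ring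

section field

open Polynomial

variable {F : Type*} [Field F] [CharZero F]

omit [CharZero F] in
theorem cop_two_one : IsCoprime (2 - X : F[X]) (1 - X) := ⟨1, -1, by ring⟩

theorem cop_two_zero : IsCoprime (2 - X : F[X]) X := by
  refine ⟨C (1 / 2), C (1 / 2), ?_⟩
  have h : (C (1 / 2 : F) : F[X]) * 2 = 1 := by
    have h2 : (2 : F[X]) = C 2 := (map_ofNat C 2).symm
    rw [h2, ← C_mul]
    norm_num
  linear_combination h

omit [CharZero F] in
theorem cop_one_zero : IsCoprime (1 - X : F[X]) X := ⟨1, 1, by ring⟩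

theorem cop_one_w : IsCoprime (1 - X : F[X]) (8 - 5 * X) := by
  refine ⟨-C (1 / 3) * 5, C (1 / 3), ?_⟩
  have h : (C (1 / 3 : F) : F[X]) * 3 = 1 := by
    have h2 : (3 : F[X]) = C 3 := (map_ofNat C 3).symm
    rw [h2, ← C_mul]
    norm_num
  linear_combination h

/-- the last step at the cusp `z = 2` -/
theorem stepA (α β γ : F) {I e : ℕ} (hI : 1 ≤ I) (he : 1 ≤ e)
    (h : (2 - X : F[X]) ^ 4 ∣ C α * (X ^ I * (1 - X) ^ (3 * e)) +
      C β * (X ^ (I + 1) * (1 - X) ^ (3 * (e - 1)) * (8 - 5 * X)) +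
      C γ * ((2 - X) ^ 2 * X ^ (I - 1) * (1 - X) ^ (3 * e))) : α = 0 ∧ β = 0 ∧ γ = 0 := by
  obtain ⟨I, rfl⟩ : ∃ k, I = k + 1 := ⟨I - 1, by omega⟩
  obtain ⟨e, rfl⟩ : ∃ k, e = k + 1 := ⟨e - 1, by omega⟩
  have h1 : C α * (X ^ (I + 1) * (1 - X) ^ (3 * (e + 1))) +
      C β * (X ^ (I + 1 + 1) * (1 - X) ^ (3 * (e + 1 - 1)) * (8 - 5 * X)) +
      C γ * ((2 - X) ^ 2 * X ^ (I + 1 - 1) * (1 - X) ^ (3 * (e + 1))) =
      (X ^ I * (1 - X : F[X]) ^ (3 * e)) * ((C α + 4 * C β) * X * (1 - X) ^ 3 +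
        (2 - X) ^ 2 * (C β * X * (4 * X - 1) + C γ * (1 - X) ^ 3)) := by
    rw [Nat.add_sub_cancel, Nat.add_sub_cancel, Nat.mul_add, pow_add (1 - X : F[X]) (3 * e),
      pow_succ, pow_succ]
    ring
  rw [h1] at h
  have hco : IsCoprime ((2 - X : F[X]) ^ 4) (X ^ I * (1 - X : F[X]) ^ (3 * e)) :=
    IsCoprime.pow_left (IsCoprime.mul_right cop_two_zero.pow_right cop_two_one.pow_right)
  obtain ⟨q, hq⟩ := hco.dvd_of_dvd_mul_left h
  have e1 := congrArg (fun p => p.eval 2) hq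
  simp only [eval_add, eval_mul, eval_C, eval_pow, eval_sub, eval_X, eval_one, eval_ofNat] at e1
  have e2 : α + 4 * β = 0 := by linear_combination (-1 / 2) * e1
  have e3 : C α + 4 * C β = 0 := by
    have h4 : (4 : F[X]) = C 4 := (map_ofNat C 4).symm
    rw [h4, ← C_mul, ← C_add, e2, C_0]
  rw [e3] at hq
  have hv : (2 - X : F[X]) ^ 2 ≠ 0 := by
    refine pow_ne_zero _ fun h0 => ?_
    have := congrArg (fun p => p.eval 0) h0
    simp at this
  have hq2 : C β * X * (4 * X - 1) + C γ * (1 - X) ^ 3 = (2 - X) ^ 2 * q := by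
    refine mul_left_cancel₀ hv ?_
    linear_combination hq
  have e4 := congrArg (fun p => p.eval 2) hq2
  have e5 := congrArg (fun p => (derivative p).eval 2) hq2
  simp only [derivative_add, derivative_mul, derivative_C, derivative_pow, derivative_sub,
    derivative_X, derivative_one, derivative_ofNat, eval_add, eval_mul, eval_C, eval_pow, eval_sub,
    eval_X, eval_one, eval_ofNat, eval_zero] at e4 e5
  norm_num at e4 e5
  have hb : β = 0 := by linear_combination (-1 / 27) * (e5 - 3 * e4)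
  have hc : γ = 0 := by
    rw [hb] at e4
    linear_combination -e4
  refine ⟨?_, hb, hc⟩
  rw [hb] at e2
  linear_combination e2

/-- the last step at the cusp `z = 1` -/
theorem stepB (α β γ : F) {J e : ℕ}
    (h : (1 - X : F[X]) ^ 3 ∣ C α * (X ^ J * (8 - 5 * X) ^ J * (2 - X) ^ (2 * e) * (2 - X) ^ 4) +
      C β * (X ^ J * (8 - 5 * X) ^ J * (2 - X) ^ (2 * e) * (X * (2 - X) ^ 2)) +
      C γ * (X ^ J * (8 - 5 * X) ^ J * (2 - X) ^ (2 * e) * X ^ 2)) : α = 0 ∧ β = 0 ∧ γ = 0 := by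
  have h1 : C α * (X ^ J * (8 - 5 * X) ^ J * (2 - X) ^ (2 * e) * (2 - X) ^ 4) +
      C β * (X ^ J * (8 - 5 * X) ^ J * (2 - X) ^ (2 * e) * (X * (2 - X) ^ 2)) +
      C γ * (X ^ J * (8 - 5 * X) ^ J * (2 - X) ^ (2 * e) * X ^ 2) =
      (X ^ J * (8 - 5 * X) ^ J * (2 - X : F[X]) ^ (2 * e)) *
        (C α * (2 - X) ^ 4 + C β * (X * (2 - X) ^ 2) + C γ * X ^ 2) := by
    ring
  rw [h1] at h
  have hco : IsCoprime ((1 - X : F[X]) ^ 3) (X ^ J * (8 - 5 * X) ^ J * (2 - X : F[X]) ^ (2 * e)) :=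
    IsCoprime.pow_left (IsCoprime.mul_right (IsCoprime.mul_right cop_one_zero.pow_right
      cop_one_w.pow_right) cop_two_one.symm.pow_right)
  obtain ⟨q, hq⟩ := hco.dvd_of_dvd_mul_left h
  have e4 := congrArg (fun p => p.eval 1) hq
  have e5 := congrArg (fun p => (derivative p).eval 1) hq
  have e6 := congrArg (fun p => (derivative (derivative p)).eval 1) hq
  simp only [derivative_add, derivative_mul, derivative_C, derivative_pow, derivative_sub,
    derivative_X, derivative_one, derivative_ofNat, eval_add, eval_mul, eval_C, eval_pow, eval_sub,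
    eval_X, eval_one, eval_ofNat, eval_zero] at e4 e5 e6
  norm_num at e4 e5 e6
  have ha : α = 0 := by linear_combination (1 / 27) * e4 - (2 / 27) * e5 + (1 / 18) * e6
  rw [ha] at e4 e5
  refine ⟨ha, ?_, ?_⟩
  · linear_combination (2 / 3) * e4 - (1 / 3) * e5
  · linear_combination (1 / 3) * e4 + (1 / 3) * e5

end field

end Pool.Agent.L7h6.QU
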