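import Pool.Agent.L7h43.QU.Stm
import Pool.Agent.L7h6.QU.InjA

/-! [INJ] of project QU (helper43). -/

set_option autoImplicit false

namespace Pool.Agent.L7h6.QU

open MvPolynomial Pool.Agent.L7h43.QU

variable {F : Type} [Field F]

theorem pull_sum (g : MvPolynomial (ZMod 3) F) : pull g = ∑ m ∈ g.support,
    Polynomial.C (g.coeff m) * (pt0 F 0 ^ m 0 * pt0 F 1 ^ m 1 * pt0 F 2 ^ m 2) := by
  unfold pull
  rw [aeval_def, eval₂_eq']
  refine Finset.sum_congr rfl fun m _ => ?_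
  have : ∏ i : ZMod 3, pt0 F i ^ m i = pt0 F 0 ^ m 0 * pt0 F 1 ^ m 1 * pt0 F 2 ^ m 2 :=
    Fin.prod_univ_three _
  rw [this]
  rfl

theorem deg_sum {e : ℕ} {g : MvPolynomial (ZMod 3) F} (hg : g.IsHomogeneous e) {m : ZMod 3 →₀ ℕ}
    (hm : m ∈ g.support) : m 0 + m 1 + m 2 = e := by
  have h := hg (mem_support_iff.1 hm)
  rw [Finsupp.weight_apply, Finsupp.sum_fintype _ _ (by simp)] at h
  simp only [Pi.one_apply, smul_eq_mul, mul_one] at h
  rw [← h]
  exact (Fin.sum_univ_three (fun l => m l)).symm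

theorem pt0_zero : pt0 F 0 = (1 - Polynomial.X) ^ 3 * (2 - Polynomial.X) ^ 2 := by
  have : pt0 F 0 = dD Polynomial.X 0 := rfl
  rw [this]
  unfold dD
  ring

theorem pt0_one : pt0 F 1 = (1 - Polynomial.X) ^ 3 * Polynomial.X := by
  have : pt0 F 1 = dA Polynomial.X 0 := rfl
  rw [this]
  unfold dA
  ring

theorem pt0_two : pt0 F 2 = (2 - Polynomial.X) ^ 2 * Polynomial.X * (8 - 5 * Polynomial.X) := by
  have : pt0 F 2 = dB Polynomial.X 0 := rfl
  rw [this]
  unfold dB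
  ring

theorem all3 {P : ZMod 3 → Prop} (h0 : P 0) (h1 : P 1) (h2 : P 2) : ∀ i, P i := by
  intro i
  change Fin 3 at i
  fin_cases i
  · exact h0
  · exact h1
  · exact h2

/-- a sum with one term -/
theorem one_term {ι : Type*} {S : Finset ι} {c : ι → F} {P : ι → Prop} [DecidablePred P] {s : ι}
    (hs : s ∈ S) (hP : P s) (hu : ∀ t ∈ S, P t → t = s) :
    ∑ t ∈ S, c t * (if P t then 1 else 0) = c s := by
  rw [Finset.sum_eq_single_of_mem s hs, if_pos hP, mul_one]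
  intro t ht hne
  rw [if_neg fun h => hne (hu t ht h), mul_zero]

theorem s_INJ : S_INJ := by
  intro F _ _ e g hg hR hne hG
  have hsum := pull_sum g
  rw [hG] at hsum
  set z : Polynomial F := Polynomial.X with hz
  set u : Polynomial F := 1 - z with hu
  set v : Polynomial F := 2 - z with hv
  set w : Polynomial F := 8 - 5 * z with hw
  have hrel : z * w = 4 * u ^ 3 + v ^ 2 * (4 * z - 1) := by
    rw [hu, hv, hw]
    ring
  have hu0 : u ≠ 0 := by
    intro h
    have := congrArg (fun p => p.eval 0) h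
    simp [hu, hz] at this
  have hv0 : v ≠ 0 := by
    intro h
    have := congrArg (fun p => p.eval 0) h
    simp [hv, hz] at this
  have h12 : ∑ m ∈ g.support, Polynomial.C (g.coeff m) *
      (z ^ (m 1 + m 2) * u ^ (3 * (e - m 2)) * v ^ (2 * (e - m 1)) * w ^ (m 2)) = 0 := by
    rw [hsum]
    refine Finset.sum_congr rfl fun m hm => ?_
    have hd := deg_sum hg hm
    rw [pt0_zero, pt0_one, pt0_two, ← hz, ← hu, ← hv, ← hw]
    have h1 : e - m 2 = m 0 + m 1 := by omega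
    have h2 : e - m 1 = m 0 + m 2 := by omega
    rw [h1, h2]
    clear_value u v w z
    ring
  have hc : ∀ m ∈ g.support, g.coeff m ≠ 0 := fun m hm => mem_support_iff.1 hm
  have hext : ∀ m ∈ g.support, ∀ n ∈ g.support, m 1 = n 1 → m 2 = n 2 → m = n := by
    intro m hm n hn h1 h2
    have hd1 := deg_sum hg hm
    have hd2 := deg_sum hg hn
    refine Finsupp.ext (all3 ?_ h1 h2)
    omega
  have Cone : Polynomial.C (1 : F) = 1 := map_one _
  have Czero : Polynomial.C (0 : F) = 0 := map_zero _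
  have Cite : ∀ (P : Prop) [Decidable P], Polynomial.C (if P then (1 : F) else 0) =
      if P then (1 : Polynomial F) else 0 := by
    intro P _
    split_ifs
    · exact Cone
    · exact Czero
  -- the first part
  have hA : ∀ m ∈ g.support, m 1 ≤ 2 := by
    by_contra hcon
    push Not at hcon
    obtain ⟨s0, hs0, hlt⟩ := hcon
    obtain ⟨s, hs, hmax⟩ := Finset.exists_max_image g.support (fun m => m 1) ⟨s0, hs0⟩
    have h0 := hmax s0 hs0
    have hI3 : 3 ≤ s 1 := by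
      have h0 : s0 1 ≤ s 1 := h0
      omega
    have hd := deg_sum hg hs
    have hb1 : ∀ m ∈ g.support, m 1 = s 1 → m 2 ≤ 1 := by
      intro m hm h
      have := hR m hm
      omega
    have hz2 : ∑ m ∈ g.support, Polynomial.C (g.coeff m) *
        (z ^ (m 1 + m 2) * u ^ (3 * (e - m 2)) * v ^ (2 * (s 1 - m 1)) * w ^ (m 2)) = 0 := by
      have h1 : v ^ (2 * (e - s 1)) * ∑ m ∈ g.support, Polynomial.C (g.coeff m) *
          (z ^ (m 1 + m 2) * u ^ (3 * (e - m 2)) * v ^ (2 * (s 1 - m 1)) * w ^ (m 2)) = 0 := by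
        rw [← h12, Finset.mul_sum]
        refine Finset.sum_congr rfl fun m hm => ?_
        have h2 : 2 * (e - m 1) = 2 * (e - s 1) + 2 * (s 1 - m 1) := by
          have : m 1 ≤ s 1 := hmax m hm
          omega
        rw [h2, pow_add v]
        clear_value u v w z
        ring
      exact (mul_eq_zero.1 h1).resolve_left (pow_ne_zero _ hv0)
    have h3 := approx g.support g.coeff
      (fun m => z ^ (m 1 + m 2) * u ^ (3 * (e - m 2)) * v ^ (2 * (s 1 - m 1)) * w ^ (m 2))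
      (fun m => (if m 1 = s 1 ∧ m 2 = 0 then 1 else 0) * (z ^ s 1 * u ^ (3 * e)) +
        (if m 1 = s 1 ∧ m 2 = 1 then 1 else 0) * (z ^ (s 1 + 1) * u ^ (3 * (e - 1)) * w) +
        (if m 1 = s 1 - 1 then 4 ^ m 2 else 0) * (v ^ 2 * z ^ (s 1 - 1) * u ^ (3 * e)))
      (v ^ 4) hz2
      (fun m hm => term_two z u v w hrel (by omega) (hmax m hm)
        (by have := deg_sum hg hm; omega) (hb1 m hm))
    have h4 : ∑ m ∈ g.support, Polynomial.C (g.coeff m) *
        ((if m 1 = s 1 ∧ m 2 = 0 then 1 else 0) * (z ^ s 1 * u ^ (3 * e)) +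
        (if m 1 = s 1 ∧ m 2 = 1 then 1 else 0) * (z ^ (s 1 + 1) * u ^ (3 * (e - 1)) * w) +
        (if m 1 = s 1 - 1 then 4 ^ m 2 else 0) * (v ^ 2 * z ^ (s 1 - 1) * u ^ (3 * e))) =
        Polynomial.C (∑ m ∈ g.support, g.coeff m * (if m 1 = s 1 ∧ m 2 = 0 then 1 else 0)) *
          (z ^ s 1 * u ^ (3 * e)) +
        Polynomial.C (∑ m ∈ g.support, g.coeff m * (if m 1 = s 1 ∧ m 2 = 1 then 1 else 0)) *
          (z ^ (s 1 + 1) * u ^ (3 * (e - 1)) * w) +
        Polynomial.C (∑ m ∈ g.support, g.coeff m * (if m 1 = s 1 - 1 then 4 ^ m 2 else 0)) *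
          (v ^ 2 * z ^ (s 1 - 1) * u ^ (3 * e)) := by
      have C4 : ∀ m : ZMod 3 →₀ ℕ, Polynomial.C (if m 1 = s 1 - 1 then (4 : F) ^ m 2 else 0) =
          if m 1 = s 1 - 1 then (4 : Polynomial F) ^ m 2 else 0 := by
        intro m
        split_ifs
        · rw [map_pow, map_ofNat]
        · exact Czero
      rw [map_sum, map_sum, map_sum, Finset.sum_mul, Finset.sum_mul, Finset.sum_mul,
        ← Finset.sum_add_distrib, ← Finset.sum_add_distrib]
      refine Finset.sum_congr rfl fun m _ => ?_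
      rw [Polynomial.C_mul, Polynomial.C_mul, Polynomial.C_mul, Cite, Cite, C4]
      clear_value u v w z
      ring
    rw [h4] at h3
    obtain ⟨a1, a2, -⟩ := stepA _ _ _ (by omega) (by omega) h3
    have hcases : s 2 = 0 ∨ s 2 = 1 := by
      have := hb1 s hs rfl
      omega
    rcases hcases with h5 | h5
    · rw [one_term hs ⟨rfl, h5⟩ fun t ht h6 => hext t ht s hs h6.1 (h6.2.trans h5.symm)] at a1
      exact hc s hs a1
    · rw [one_term hs ⟨rfl, h5⟩ fun t ht h6 => hext t ht s hs h6.1 (h6.2.trans h5.symm)] at a2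
      exact hc s hs a2
  -- the second part
  obtain ⟨s0, hs0⟩ := support_nonempty.2 hne
  obtain ⟨s, hs, hmax⟩ := Finset.exists_max_image g.support (fun m => m 2) ⟨s0, hs0⟩
  have hz2 : ∑ m ∈ g.support, Polynomial.C (g.coeff m) *
      (v ^ 4 * (z ^ (m 1 + m 2) * u ^ (3 * (s 2 - m 2)) * v ^ (2 * (e - m 1)) * w ^ (m 2))) = 0 := by
    have h1 : u ^ (3 * (e - s 2)) * ∑ m ∈ g.support, Polynomial.C (g.coeff m) *
        (v ^ 4 * (z ^ (m 1 + m 2) * u ^ (3 * (s 2 - m 2)) * v ^ (2 * (e - m 1)) * w ^ (m 2))) = 0 := by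
      rw [← mul_zero (v ^ 4), ← h12, Finset.mul_sum, Finset.mul_sum]
      refine Finset.sum_congr rfl fun m hm => ?_
      have h2 : 3 * (e - m 2) = 3 * (e - s 2) + 3 * (s 2 - m 2) := by
        have : m 2 ≤ s 2 := hmax m hm
        have := deg_sum hg hs
        omega
      rw [h2, pow_add u]
      clear_value u v w z
      ring
    exact (mul_eq_zero.1 h1).resolve_left (pow_ne_zero _ hu0)
  have h3 := approx g.support g.coeff
    (fun m => v ^ 4 * (z ^ (m 1 + m 2) * u ^ (3 * (s 2 - m 2)) * v ^ (2 * (e - m 1)) * w ^ (m 2)))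
    (fun m => (if m 2 = s 2 ∧ m 1 = 0 then 1 else 0) * (z ^ s 2 * w ^ s 2 * v ^ (2 * e) * v ^ 4) +
      (if m 2 = s 2 ∧ m 1 = 1 then 1 else 0) * (z ^ s 2 * w ^ s 2 * v ^ (2 * e) * (z * v ^ 2)) +
      (if m 2 = s 2 ∧ m 1 = 2 then 1 else 0) * (z ^ s 2 * w ^ s 2 * v ^ (2 * e) * z ^ 2))
    (u ^ 3) hz2
    (fun m hm => term_one z u v w (hA m hm) (by have := deg_sum hg hm; omega) (hmax m hm))
  have h4 : ∑ m ∈ g.support, Polynomial.C (g.coeff m) *
      ((if m 2 = s 2 ∧ m 1 = 0 then 1 else 0) * (z ^ s 2 * w ^ s 2 * v ^ (2 * e) * v ^ 4) +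
      (if m 2 = s 2 ∧ m 1 = 1 then 1 else 0) * (z ^ s 2 * w ^ s 2 * v ^ (2 * e) * (z * v ^ 2)) +
      (if m 2 = s 2 ∧ m 1 = 2 then 1 else 0) * (z ^ s 2 * w ^ s 2 * v ^ (2 * e) * z ^ 2)) =
      Polynomial.C (∑ m ∈ g.support, g.coeff m * (if m 2 = s 2 ∧ m 1 = 0 then 1 else 0)) *
        (z ^ s 2 * w ^ s 2 * v ^ (2 * e) * v ^ 4) +
      Polynomial.C (∑ m ∈ g.support, g.coeff m * (if m 2 = s 2 ∧ m 1 = 1 then 1 else 0)) *
        (z ^ s 2 * w ^ s 2 * v ^ (2 * e) * (z * v ^ 2)) +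
      Polynomial.C (∑ m ∈ g.support, g.coeff m * (if m 2 = s 2 ∧ m 1 = 2 then 1 else 0)) *
        (z ^ s 2 * w ^ s 2 * v ^ (2 * e) * z ^ 2) := by
    rw [map_sum, map_sum, map_sum, Finset.sum_mul, Finset.sum_mul, Finset.sum_mul,
      ← Finset.sum_add_distrib, ← Finset.sum_add_distrib]
    refine Finset.sum_congr rfl fun m _ => ?_
    rw [Polynomial.C_mul, Polynomial.C_mul, Polynomial.C_mul, Cite, Cite, Cite]
    clear_value u v w z
    ring
  rw [h4] at h3
  obtain ⟨a0, a1, a2⟩ := stepB _ _ _ h3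
  have hcases : s 1 = 0 ∨ s 1 = 1 ∨ s 1 = 2 := by
    have := hA s hs
    omega
  rcases hcases with h5 | h5 | h5
  · rw [one_term hs ⟨rfl, h5⟩ fun t ht h6 => hext t ht s hs (h6.2.trans h5.symm) h6.1] at a0
    exact hc s hs a0
  · rw [one_term hs ⟨rfl, h5⟩ fun t ht h6 => hext t ht s hs (h6.2.trans h5.symm) h6.1] at a1
    exact hc s hs a1
  · rw [one_term hs ⟨rfl, h5⟩ fun t ht h6 => hext t ht s hs (h6.2.trans h5.symm) h6.1] at a2
    exact hc s hs a2

end Pool.Agent.L7h6.QU
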